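import Pool.Agent.helper68.GB.Spec

set_option autoImplicit false

/-! Row MXZ of project GB (MP_baa4d7_al). -/

namespace Pool.Agent.GB

open Pool.Agent.helper58.DC Pool.Agent.DI Pool.Agent.GR Pool.Agent.OB Pool.Agent.DR Pool.Agent.FI Pool.Agent.FI3 Pool.Agent.FI4 Pool.Agent.LE Pool.Agent.BR

section

variable {G : Type} [Group G]

theorem MXZ_cz {P : Subgroup G} {n : G} (hn : n ∈ nz P) : cj n (cz P) = cz P := by
  rw [← cj_cz, cj_nz.2 hn]

theorem MXZ_czS {P : Subgroup G} {n : G} (hn : n ∈ nz P) : cjS n (cz P) = cz P := MXZ_cz hn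

theorem MXZ_P {P : Subgroup G} {n : G} (hn : n ∈ nz P) : cjS n P = P := cj_nz.2 hn

theorem MXZ_SB {M : Ideal (integralClosure ℤ ℂ)} {P : Subgroup G} {n : G} (hn : n ∈ nz P) {η ψ : G → ℂ}
    (h : SB M (cz P) η ψ) : SB M (cz P) (cjF n η) (cjF n ψ) := by
  have h1 := SB_conj h n
  rwa [MXZ_cz hn] at h1

theorem MXZ_irr [Finite G] {P : Subgroup G} {n : G} (hn : n ∈ nz P) {η : G → ℂ} (h : η ∈ IrrOn (cz P)) :
    cjF n η ∈ IrrOn (cz P) := by
  have h1 := IrrOn_funMap h n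
  rwa [MXZ_cz hn] at h1

theorem MXZ_cancel (m : G) (η : G → ℂ) : cjF m⁻¹ (cjF m η) = η := by
  change funMap (MulAut.conj m⁻¹) (funMap (MulAut.conj m) η) = η
  rw [← funMap_mul, inv_mul_cancel, funMap_one']

/-- The union of blocks of `cz P`. -/
def MXZ_S (M : Ideal (integralClosure ℤ ℂ)) (P : Subgroup G) (θ : G → ℂ) : Set (G → ℂ) :=
  {η | η ∈ IrrOn (cz P) ∧ ∃ n ∈ nz P, SB M (cz P) (cjF n η) θ}

theorem MXZ_sub (M : Ideal (integralClosure ℤ ℂ)) (P : Subgroup G) (θ : G → ℂ) : MXZ_S M P θ ⊆ IrrOn (cz P) :=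
  fun _ h => h.1

theorem MXZ_block {M : Ideal (integralClosure ℤ ℂ)} {P : Subgroup G} {θ ψ ψ' : G → ℂ} (h : ψ ∈ MXZ_S M P θ)
    (h' : ψ' ∈ IrrOn (cz P)) (hb : SB M (cz P) ψ ψ') : ψ' ∈ MXZ_S M P θ := by
  obtain ⟨-, n, hn, h2⟩ := h
  exact ⟨h', n, hn, (MXZ_SB hn hb.symm).trans h2⟩

theorem MXZ_BC (M : Ideal (integralClosure ℤ ℂ)) (P : Subgroup G) (θ : G → ℂ) : BC M (cz P) (MXZ_S M P θ) :=
  ⟨MXZ_sub M P θ, fun _ h _ h' hb => MXZ_block h h' hb⟩

theorem MXZ_stab [Finite G] {M : Ideal (integralClosure ℤ ℂ)} {P : Subgroup G} {θ ψ : G → ℂ} {m : G} (hm : m ∈ nz P)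
    (h : ψ ∈ MXZ_S M P θ) : cjF m ψ ∈ MXZ_S M P θ := by
  obtain ⟨h1, n, hn, h2⟩ := h
  refine ⟨MXZ_irr hm h1, n * m⁻¹, (nz P).mul_mem hn ((nz P).inv_mem hm), ?_⟩
  have e : cjF (n * m⁻¹) (cjF m ψ) = cjF n ψ := by
    change funMap (MulAut.conj (n * m⁻¹)) (funMap (MulAut.conj m) ψ) = funMap (MulAut.conj n) ψ
    rw [← funMap_mul, inv_mul_cancel_right]
  rw [e]
  exact h2

theorem MXZ_stab_iff [Finite G] {M : Ideal (integralClosure ℤ ℂ)} {P : Subgroup G} {θ ψ : G → ℂ} {m : G} (hm : m ∈ nz P) :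
    cjF m ψ ∈ MXZ_S M P θ ↔ ψ ∈ MXZ_S M P θ := by
  refine ⟨fun h => ?_, MXZ_stab hm⟩
  have h1 := MXZ_stab ((nz P).inv_mem hm) h
  rwa [MXZ_cancel] at h1

theorem MXZ_self {M : Ideal (integralClosure ℤ ℂ)} {P : Subgroup G} {θ : G → ℂ} (h : θ ∈ IrrOn (cz P)) :
    θ ∈ MXZ_S M P θ := by
  refine ⟨h, 1, (nz P).one_mem, ?_⟩
  have e : cjF (1 : G) θ = θ := funMap_one' θ
  rw [e]
  exact SB.refl _ _

open Classical in
/-- the indicator function of the set -/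
noncomputable def MXZ_c (M : Ideal (integralClosure ℤ ℂ)) (P : Subgroup G) (θ : G → ℂ) (η : G → ℂ) : ℂ :=
  if η ∈ MXZ_S M P θ then 1 else 0

theorem MXZ_c_pos {M : Ideal (integralClosure ℤ ℂ)} {P : Subgroup G} {θ η : G → ℂ} (h : η ∈ MXZ_S M P θ) :
    MXZ_c M P θ η = 1 := by
  unfold MXZ_c
  rw [if_pos h]

theorem MXZ_c_neg {M : Ideal (integralClosure ℤ ℂ)} {P : Subgroup G} {θ η : G → ℂ} (h : η ∉ MXZ_S M P θ) :
    MXZ_c M P θ η = 0 := by
  unfold MXZ_c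
  rw [if_neg h]

theorem MXZ_c_congr {M : Ideal (integralClosure ℤ ℂ)} {P : Subgroup G} {θ η η' : G → ℂ}
    (h : η ∈ MXZ_S M P θ ↔ η' ∈ MXZ_S M P θ) : MXZ_c M P θ η = MXZ_c M P θ η' := by
  by_cases h1 : η ∈ MXZ_S M P θ
  · rw [MXZ_c_pos h1, MXZ_c_pos (h.1 h1)]
  · rw [MXZ_c_neg h1, MXZ_c_neg fun h2 => h1 (h.2 h2)]

/-- the idempotent as a sum over the block idempotents -/
theorem MXZ_sum [Finite G] (M : Ideal (integralClosure ℤ ℂ)) (P : Subgroup G) (θ : G → ℂ) (x : G) :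
    ∑ᶠ η ∈ IrrOn (cz P), MXZ_c M P θ η * eS (cz P) {η} x = eS (cz P) (MXZ_S M P θ) x := by
  have h1 : ∀ η : G → ℂ, eS (cz P) {η} x = η 1 * η x⁻¹ / Nat.card (cz P) := by
    intro η
    unfold eS
    rw [finsum_mem_singleton]
  have h2 : ∑ᶠ η ∈ IrrOn (cz P), MXZ_c M P θ η * eS (cz P) {η} x =
      ∑ᶠ η ∈ MXZ_S M P θ, η 1 * η x⁻¹ / Nat.card (cz P) := by
    refine finsum_congr fun η => ?_
    rw [h1]
    by_cases hη : η ∈ MXZ_S M P θ
    · have h3 : η ∈ IrrOn (cz P) := hη.1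
      simp only [hη, h3, finsum_true, MXZ_c_pos hη, one_mul]
    · by_cases h3 : η ∈ IrrOn (cz P)
      · simp only [hη, h3, finsum_true, finsum_false, MXZ_c_neg hη, zero_mul]
      · simp only [hη, h3, finsum_false]
  rw [h2]
  unfold eS
  have hfin : (MXZ_S M P θ).Finite := (IrrOn_fin (cz P)).subset (MXZ_sub M P θ)
  rw [finsum_mem_eq_finite_toFinset_sum _ hfin, finsum_mem_eq_finite_toFinset_sum _ hfin, Finset.sum_div]

/-- the vanishing modulo `M` on the centralisers of larger subgroups -/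
theorem MXZ_van (hNIS : NIS_stmt) (hCJB : CJB_stmt) (hORP : ORP_stmt) (hREP : REP_stmt) [Finite G] {p : ℕ}
    {M : Ideal (integralClosure ℤ ℂ)} (hS : Setup p M) {P : Subgroup G} {f : G → ℂ} (hf : Pai p M P f)
    (hmax : ∀ (R : Subgroup G) (g : G → ℂ), Nin p M P f R g → R = P) {R : Subgroup G} (hR : IsPGroup p R) (hPR : P < R)
    (hRn : R ≤ nz P) {x : G} (hx : x ∈ cz R) : InM M (eS (cz P) (MXZ_S M P (rep M (cz P) f)) x) := by
  obtain ⟨r1, r2, r3, r4, r5⟩ := hREP p M hS G (cz P)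
  set θ := rep M (cz P) f with hθ
  have hθI : θ ∈ IrrOn (cz P) := (r2 f hf.bb).1
  have hsum := r5 (MXZ_c M P θ) (fun η hη η' hη' h =>
    MXZ_c_congr ⟨fun h1 => MXZ_block h1 hη' h, fun h1 => MXZ_block h1 hη h.symm⟩) x
  rw [MXZ_sum] at hsum
  rw [← hsum]
  -- the action of `R`
  have hact : ∀ r ∈ R, ∀ e ∈ BB M (cz P), cjF r e ∈ BB M (cz P) := by
    intro r hr e he
    have h1 := ((hCJB p M hS G r (cz P) e).1).1 he
    rwa [MXZ_czS (hRn hr)] at h1
  letI act : MulAction R (BB M (cz P)) :=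
    { smul := fun r e => ⟨cjF (r : G) e.1, hact r.1 r.2 e.1 e.2⟩
      one_smul := fun e => Subtype.ext (funMap_one' e.1)
      mul_smul := fun r s e => Subtype.ext (funMap_mul (r : G) (s : G) e.1) }
  have hsm : ∀ (r : R) (e : BB M (cz P)), ((r • e : BB M (cz P)) : G → ℂ) = cjF (r : G) e.1 := fun _ _ => rfl
  have hfinB : Finite (BB M (cz P)) := r1.to_subtype
  have hval : ∀ e ∈ BB M (cz P), ∀ r ∈ R, MXZ_c M P θ (rep M (cz P) (cjF r e)) = MXZ_c M P θ (rep M (cz P) e) := by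
    intro e he r hr
    have h1 := (hCJB p M hS G r (cz P) e).2.1 he
    rw [MXZ_czS (hRn hr)] at h1
    have h2 : rep M (cz P) (cjF r e) ∈ MXZ_S M P θ ↔ cjF r (rep M (cz P) e) ∈ MXZ_S M P θ :=
      ⟨fun h3 => MXZ_block h3 (MXZ_irr (hRn hr) (r2 e he).1) h1,
        fun h3 => MXZ_block h3 (r2 _ (hact r hr e he)).1 h1.symm⟩
    exact MXZ_c_congr (h2.trans (MXZ_stab_iff (hRn hr)))
  have horp := hORP p M hS R hR (BB M (cz P)) (fun e => MXZ_c M P θ (rep M (cz P) e.1) * e.1 x) (by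
      intro e
      refine IntAt.mul hS ?_ ((r4 e.1 e.2).2.2.1 x)
      by_cases h1 : rep M (cz P) e.1 ∈ MXZ_S M P θ
      · rw [MXZ_c_pos h1]
        exact IntAt.one hS
      · rw [MXZ_c_neg h1]
        exact IntAt.zero hS) (by
      intro r e
      rw [hsm, hval e.1 e.2 r.1 r.2, cjF_apply]
      congr 2
      have h1 := (Subgroup.mem_centralizer_iff.1 hx) r.1 r.2
      rw [mul_assoc, ← h1]
      group)
  have hfix : InM M (∑ᶠ e ∈ MulAction.fixedPoints R (BB M (cz P)), MXZ_c M P θ (rep M (cz P) e.1) * e.1 x) := by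
    refine InM.finsum_mem hS fun e he => ?_
    by_cases h1 : rep M (cz P) e.1 ∈ MXZ_S M P θ
    · obtain ⟨hI, n, hn, hb⟩ := h1
      rw [MXZ_c_pos ⟨hI, n, hn, hb⟩, one_mul]
      -- `cjF n e = f`
      have h2 := (hCJB p M hS G n (cz P) e.1).2.1 e.2
      have h3 := ((hCJB p M hS G n (cz P) e.1).1).1 e.2
      rw [MXZ_czS hn] at h2 h3
      have h4 : SB M (cz P) (rep M (cz P) (cjF n e.1)) θ := h2.trans hb
      have h5 := (r3 _ (r2 _ h3).1 _ hθI).2 h4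
      rw [(r2 _ h3).2, (r2 f hf.bb).2] at h5
      -- invariance
      have hinv : Inv R e.1 := by
        intro s hs y
        have h6 := he (⟨s, hs⟩⁻¹ : R)
        have h7 := congrArg (fun e : BB M (cz P) => (e : G → ℂ) y) h6
        simp only [hsm] at h7
        rw [cjF_apply] at h7
        rw [← h7]
        congr 1
        simp
      have h8 := hNIS p M hS G P R e.1 ⟨hf.pg, e.2⟩ hR hPR.le hRn hinv x
      have h9 : ({g | Nin p M P e.1 R g} : Set (G → ℂ)) = ∅ := by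
        rw [Set.eq_empty_iff_forall_notMem]
        intro g hg
        have h10 := (((hCJB p M hS G n (cz P) e.1).2.2.2.2 P R g).2.1).1 hg
        rw [MXZ_P hn, h5] at h10
        have h11 := hmax _ _ h10
        have h12 : Nat.card (cjS n R) = Nat.card R := card_cj n R
        rw [h11] at h12
        have h13 : P = R := Subgroup.eq_of_le_of_card_ge hPR.le h12.symm.le
        exact hPR.ne h13
      rw [h9, finsum_mem_empty, sub_zero] at h8
      unfold rsk at h8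
      rwa [if_pos hx] at h8
    · rw [MXZ_c_neg h1, zero_mul]
      exact InM.zero hS
  have hall : InM M (∑ᶠ e : BB M (cz P), MXZ_c M P θ (rep M (cz P) e.1) * e.1 x) := by
    have h1 := horp.add hS hfix
    rwa [sub_add_cancel] at h1
  have h2 : ∑ᶠ e : BB M (cz P), MXZ_c M P θ (rep M (cz P) e.1) * e.1 x =
      ∑ᶠ e ∈ BB M (cz P), MXZ_c M P θ (rep M (cz P) e) * e x :=
    finsum_set_coe_eq_finsum_mem (f := fun e : G → ℂ => MXZ_c M P θ (rep M (cz P) e) * e x) (BB M (cz P))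
  rwa [h2] at hall

end

theorem MXZ (hEXZ : EXZ_stmt) (hNIS : NIS_stmt) (hCJB : CJB_stmt) (hORP : ORP_stmt) (hDCM : DCM_stmt) (hTPR : Pool.Agent.FI.TPR_stmt)
    (hCNTL : CNTL_stmt) (hIVS : IVS_stmt) (hREP : REP_stmt) (hIDM : IDM_stmt) (hEIN : EIN_stmt) (hCCI : CCI_stmt) :
    MXZ_stmt := by
  intro p M hS G _ _ D x χ hχ hD P f hf hb hmax
  obtain ⟨r1, r2, r3, r4, r5⟩ := hREP p M hS G (cz P)
  have hθI : rep M (cz P) f ∈ IrrOn (cz P) := (r2 f hf.bb).1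
  obtain ⟨hCFa, hcc, -, -⟩ := hIDM G (cz P) (MXZ_S M P (rep M (cz P) f)) (MXZ_sub M P _)
  have hInt := hEIN p M hS G (cz P) _ (MXZ_BC M P (rep M (cz P) f))
  obtain ⟨z, hz1, hz2, hz3, hz4⟩ := hEXZ p M hS G ⊤ P hf.pg le_top (eS (cz P) (MXZ_S M P (rep M (cz P) f))) hInt
    (by
      intro y hy
      refine hCFa.2 y fun h => hy ?_
      exact ⟨Subgroup.mem_top y, h⟩)
    (by
      intro n _ hn y
      exact hIVS G (cz P) _ (MXZ_sub M P _) n (fun ψ hψ => MXZ_stab hn hψ) y)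
    (by
      intro R hR hPR _ hRn y hy
      exact MXZ_van hNIS hCJB hORP hREP hS hf hmax hR hPR hRn hy)
  -- `cc θ z ≡ 1`
  obtain ⟨c1, -, c3⟩ := hCCI G (cz P) _ hθI
  have hcut : InM M (cc (rep M (cz P) f) (cut (cz P) z - eS (cz P) (MXZ_S M P (rep M (cz P) f)))) := by
    refine (c3 p M hS _ ?_).2 ?_
    · intro h hh y
      have h1 := (CF_cut (le_refl (cz P)) (z := z) fun l _ y => hz1.1 l (Subgroup.mem_top l) y).1 h hh y
      rw [Pi.sub_apply, Pi.sub_apply, h1, hCFa.1 h hh y]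
    · intro y
      rw [Pi.sub_apply]
      by_cases hy : y ∈ cz P
      · rw [cut_mem hy]
        exact hz3 y ⟨Subgroup.mem_top y, hy⟩
      · rw [cut_not hy, hCFa.2 y hy, sub_zero]
        exact InM.zero hS
  have hone : InM M (cc (rep M (cz P) f) z - 1) := by
    rw [(c1 0 (cut (cz P) z) (eS (cz P) (MXZ_S M P (rep M (cz P) f)))).2.1, cc_cut hθI.1, hcc _ hθI,
      if_pos (MXZ_self hθI)] at hcut
    exact hcut
  have hχz : ¬ InM M (cc χ z) := by
    intro h1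
    have h2 := SBIb hS hb hz1 hz2
    have h3 : InM M (cc (rep M (cz P) f) z) := by
      have h4 := h2.add hS h1
      rwa [sub_add_cancel] at h4
    have h5 := h3.sub hS hone
    rw [sub_sub_cancel] at h5
    exact InM.not_one hS h5
  have hχI : χ ∈ IrrOn (⊤ : Subgroup G) := IrrOn_top.2 hχ
  have hy : ∃ y, ¬ InM M (z y) ∧ ¬ InM M (cc χ (cls ⊤ y)) := by
    by_contra hcon
    push Not at hcon
    refine hχz (((hDCM G ⊤ M p hS).1 χ z hz1.1 hz2 fun y => ?_).2 fun y => ?_)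
    · exact IntAt.of_isIntegral hS (cc_cls_int (le_refl _) hχI y)
    · by_cases h1 : InM M (z y)
      · exact Or.inl h1
      · exact Or.inr (hcon y h1)
  obtain ⟨y, hy1, hy2⟩ := hy
  have hcardP := hz4 y fun h => hy1 (by rw [h]; exact InM.zero hS)
  rw [cc_cls_top] at hy2
  have hcardD := hD.min y hy2
  have hCz : Cz (⊤ : Subgroup G) y = Subgroup.centralizer {y} := top_inf_eq _
  rw [hCz] at hcardP
  have hle : Nat.card D ≤ Nat.card P := hcardD.trans hcardP.ge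
  have hDL := (hTPR p M hS G).2.2.1 χ D x hD
  obtain ⟨l, -, hl⟩ := hCNTL p M hS G ⊤ P hf.pg le_top (rep M (cz P) f) (by rw [top_inf_eq]; exact hθI) χ hb D x hDL
  refine ⟨l, Subgroup.eq_of_le_of_card_ge ?_ ?_⟩
  · intro y hy
    rw [mem_cjS] at hy
    have h1 := hl _ hy
    have h2 : l * (l⁻¹ * y * l) * l⁻¹ = y := by group
    rwa [h2] at h1
  · have h1 : Nat.card (cjS l P) = Nat.card P := card_cj l P
    rw [h1]
    exact hle

end Pool.Agent.GB
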